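import Pool.Agent.Lib.MP_58f141_lc.CircFinal

/-!
# Longest common subsequence with few strings over a fixed alphabet: W[t]-hardness for all t
-/

namespace Pool.Agent.Results.MP_58f141_lc.BinaryWtHard

open Pool.Agent.Lib.MP_58f141_lc

/-- The longest common subsequence problem over an alphabet with `q ≥ 2` letters, parameterized by
the number of strings, is `W[t]`-hard for every `t`; in particular, over four letters it is
`W[1]`-hard. -/
theorem result (q : ℕ) (hq : 2 ≤ q) (t : ℕ) : WHard t (LCS q) := lcs_hard hq t

end Pool.Agent.Results.MP_58f141_lc.BinaryWtHard
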