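import Pool.Agent.Lib.MP_58f141_lc.ChainFinal

/-!
# Chained multicoloured clique reduces to longest common subsequence over a fixed alphabet
-/

namespace Pool.Agent.Results.MP_58f141_lc.ChainedCliqueReduction

open Pool.Agent.Lib.MP_58f141_lc

/-- For every `q ≥ 2`, one machine turns, in polynomial time, every instance of Chained
Multicoloured Clique with `K` colours into an equivalent instance of longest common subsequence
over `q` letters with exactly `4 K + 3` strings. -/
theorem result (q : ℕ) (hq : 2 ≤ q) :
    ∃ (M : Turing.TM2ComputableAux GLetter Bool) (p : Polynomial ℕ),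
      (∀ k, Finite (M.tm.Γ k)) ∧ ∀ I : ChainedClique, ∃ J : LcsInst q,
        Halts M I.word J.word (p.eval I.word.length) ∧ J.strings.length = 4 * I.K + 3 ∧
          (I.Yes ↔ J.Yes) :=
  clique_reduces hq

end Pool.Agent.Results.MP_58f141_lc.ChainedCliqueReduction
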